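import Pool.Agent.U385.FJ.LN
import Pool.Agent.N431.CE.Fin

/-!
# Compatible series on cylinders
-/

set_option autoImplicit false

namespace Pool.Agent.U385.FJ

open SimpleGraph
open scoped commutatorElement Pointwise
open Subgroup
open Subgroup.Commensurable (commensurator)
open Pool.Agent.Y110.FJ
open Pool.Agent.N509.TK
open Pool.Agent.N509.TX (AcylF C_edge)
open Pool.Agent.N431.CE (Es mem_Es Es_comm Es_smul rf rf_LR Rf Rf_gen cylF)

variable {C : ∀ (G : Type) [Group G], Prop}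
variable {G V : Type} [Group G] [MulAction G V] {T : SimpleGraph V}

theorem QC.mono {A A' B : Subgroup G} (h : QC C A B) (hA : A' ≤ A) : QC C A' B := by
  obtain ⟨P, _, f, hP, hf⟩ := h
  exact ⟨P, _, f.comp (inclusion hA), hP, fun x => hf (inclusion hA x)⟩

/-- groups which preserve a cylinder, with a compatible series -/
theorem cyl_series (hC : ClosedE C) (hM : ∀ (G : Type) [Group G], derivedSeries G 2 = ⊥ → C G)
    (hT : T.IsTree) (hact : ∀ (g : G) (u v : V), T.Adj u v → T.Adj (g • u) (g • v))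
    {r : V → V → V → Prop} (hr : LR G T r) (y : Cyl T r) (K : Subgroup G)
    (hK : ∀ g ∈ K, Pres hact y g) (n : ℕ) (R : ℕ → V → Subgroup G)
    (bot : ∀ v, Mem y v → R 0 v = ⊥)
    (mono : ∀ i < n, ∀ v, Mem y v → R i v ≤ R (i + 1) v)
    (fix : ∀ i ≤ n, ∀ v, Mem y v → ∀ x ∈ R i v, x • v = v)
    (conj : ∀ i ≤ n, ∀ g ∈ K, ∀ v, Mem y v → ∀ x ∈ R i v, g * x * g⁻¹ ∈ R i (g • v))
    (edge : ∀ i ≤ n, ∀ u v (h : T.Adj u v), cy r h = y → ∀ x ∈ R i u, x • v = v → x ∈ R i v)
    (lay : ∀ i < n, ∀ v, Mem y v → ⁅R (i + 1) v, R (i + 1) v⁆ ≤ R i v)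
    (hE : ∀ u v (h : T.Adj u v), cy r h = y → ∀ g ∈ K, g • u = u → g • v = v → g ∈ R n u)
    (hQ : ∀ v, Mem y v → QC C (K ⊓ MulAction.stabilizer G v) (R n v)) : C K := by
  let _ : MulAction K {v : V | Mem y v} :=
    { smul := fun g v => ⟨(g : G) • (v : V), (hK g g.2).mem v.2⟩
      one_smul := fun v => Subtype.ext (one_smul G (v : V))
      mul_smul := fun g h v => Subtype.ext (mul_smul (g : G) (h : G) (v : V)) }
  have htree : (T.induce {v : V | Mem y v}).IsTree := by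
    refine ⟨?_, hT.isAcyclic.induce _⟩
    obtain ⟨⟨⟨o, a⟩, h⟩, hy⟩ := Quotient.exists_rep y
    have : Nonempty {v : V | Mem y v} := ⟨⟨o, a, h, hy⟩⟩
    refine ⟨fun v u => ?_⟩
    obtain ⟨p, hp, -⟩ := hT.existsUnique_path (v : V) (u : V)
    exact ⟨p.induce _ (path_mem hT hr v.2 u.2 p hp)⟩
  have hact' : ∀ (g : K) (u v : {v : V | Mem y v}), (T.induce {v : V | Mem y v}).Adj u v →
      (T.induce {v : V | Mem y v}).Adj (g • u) (g • v) := fun g u v h => hact g _ _ h
  have hser : Series (G := K) (V := {v : V | Mem y v}) C (T.induce {v : V | Mem y v}) n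
      (fun i v => (R i v).comap K.subtype) := by
    refine ⟨?_, ?_, ?_, ?_, ?_, ?_⟩
    · intro v
      show (R 0 v).comap K.subtype = ⊥
      rw [bot v v.2, eq_bot_iff]
      intro x hx
      exact Subtype.ext hx
    · exact fun i hi v => comap_mono (mono i hi v v.2)
    · exact fun i hi v x hx => Subtype.ext (fix i hi v v.2 x hx)
    · exact fun i hi g v x hx => conj i hi g g.2 v v.2 x hx
    · exact fun i hi u v huv x hx hxv => edge i hi u v huv (adj_cy hT hr u.2 v.2 huv) x hx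
        (congrArg Subtype.val hxv)
    · intro i hi
      left
      intro v
      rw [commutator_le]
      intro a ha b hb
      exact lay i hi v v.2 (commutator_mem_commutator ha hb)
  have hn := (hser.fm le_rfl).normal
  refine series_main hC hM htree hact' hser (quot_mem hC htree hact' (hser.fm le_rfl) ?_ ?_)
  · intro u v huv g hgu hgv
    exact hE u v huv (adj_cy hT hr u.2 v.2 huv) g g.2 (congrArg Subtype.val hgu)
      (congrArg Subtype.val hgv)
  · intro v
    obtain ⟨P, _, f, hP, hf⟩ := hQ v v.2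
    let j : MulAction.stabilizer K v →* ↥(K ⊓ MulAction.stabilizer G (v : V)) :=
      (K.subtype.comp (Subgroup.subtype _)).codRestrict _ (by
        rintro ⟨g, hg⟩
        exact ⟨g.2, congrArg Subtype.val hg⟩)
    exact ⟨P, _, f.comp j, hP, fun g => hf (j g)⟩

/-- the roots of the nontrivial elements of `E` which fix `v` -/
def Rts (G : Type) {V : Type} [Group G] [MulAction G V] (v u : V) : Set G :=
  {x | x • v = v ∧ ∃ m : ℕ, x ^ m ∈ Es G v u ∧ x ^ m ≠ 1}

/-- torsion-free subgroups -/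
def TF (A : Subgroup G) : Prop := ∀ x ∈ A, ∀ m : ℕ, m ≠ 0 → x ^ m = 1 → x = 1

theorem UR.tf {A : Subgroup G} (h : UR A) : TF A := fun x hx m hm hxm =>
  h x hx 1 (one_mem _) m hm (by rw [hxm, one_pow])

theorem Rts_mono {v u u' : V} (hE : TF (Es G v u)) (h : (Es G v u').relIndex (Es G v u) ≠ 0) :
    Rts G v u ⊆ Rts G v u' := by
  rintro x ⟨hx, m, hxm, hm⟩
  obtain ⟨k, hk, -, hxk⟩ := Subgroup.exists_pow_mem_of_relIndex_ne_zero h hxm
  refine ⟨hx, m * k, ?_, ?_⟩
  · rw [pow_mul]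
    exact hxk.1
  · rw [pow_mul]
    exact fun h1 => hm (hE _ hxm k hk.ne' h1)

theorem Rts_eq {v u u' : V} (hE : TF (Es G v u)) (hE' : TF (Es G v u'))
    (h : Commensurable (Es G v u) (Es G v u')) : Rts G v u = Rts G v u' :=
  Set.Subset.antisymm (Rts_mono hE h.2) (Rts_mono hE' h.1)

theorem Rts_le (v u : V) : closure (Rts G v u) ≤ MulAction.stabilizer G v := by
  rw [closure_le]
  rintro x ⟨hx, -⟩
  exact hx

theorem Es_le_Rts (v u : V) : Es G v u ≤ closure (Rts G v u) := by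
  intro x hx
  by_cases h1 : x = 1
  · rw [h1]
    exact one_mem _
  · exact subset_closure ⟨hx.1, 1, by rwa [pow_one], by rwa [pow_one]⟩

theorem Rts_Dn (v u : V) : Dn (closure (Rts G v u)) (Es G v u) := by
  refine ⟨_, rfl, ?_⟩
  rintro y ⟨-, m, hm, hm1⟩
  refine ⟨m, ?_, hm⟩
  rintro rfl
  exact hm1 (pow_zero y)

theorem Rts_smul {g x : G} {v u : V} :
    x ∈ Rts G v u ↔ g * x * g⁻¹ ∈ Rts G (g • v) (g • u) := by
  have h1 : ∀ (g x : G) (v u : V), x ∈ Rts G v u → g * x * g⁻¹ ∈ Rts G (g • v) (g • u) := by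
    rintro g x v u ⟨hx, m, hxm, hm⟩
    refine ⟨by rw [mul_smul, inv_smul_smul, mul_smul, hx], m, ?_, ?_⟩
    · rw [conj_pow, mem_Es]
      exact ⟨by rw [mul_smul, inv_smul_smul, mul_smul, hxm.1],
        by rw [mul_smul, inv_smul_smul, mul_smul, hxm.2]⟩
    · rw [conj_pow]
      exact fun h1 => hm (conj_eq_one_iff.1 h1)
  refine ⟨h1 g x v u, fun h => ?_⟩
  have h2 := h1 g⁻¹ _ _ _ h
  rw [inv_smul_smul, inv_smul_smul] at h2
  have h3 : g⁻¹ * (g * x * g⁻¹) * g⁻¹⁻¹ = x := by group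
  rwa [h3] at h2

theorem cl_smul {g x : G} {v u : V} :
    x ∈ closure (Rts G v u) ↔ g * x * g⁻¹ ∈ closure (Rts G (g • v) (g • u)) := by
  have h1 : ∀ (g x : G) (v u : V), x ∈ closure (Rts G v u) →
      g * x * g⁻¹ ∈ closure (Rts G (g • v) (g • u)) := by
    intro g x v u hx
    have h2 : closure (Rts G v u) ≤
        (closure (Rts G (g • v) (g • u))).comap (MulAut.conj g).toMonoidHom := by
      rw [closure_le]
      intro z hz
      exact subset_closure (Rts_smul.1 hz)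
    exact h2 hx
  refine ⟨h1 g x v u, fun h => ?_⟩
  have h2 := h1 g⁻¹ _ _ _ h
  rw [inv_smul_smul, inv_smul_smul] at h2
  have h3 : g⁻¹ * (g * x * g⁻¹) * g⁻¹⁻¹ = x := by group
  rwa [h3] at h2

/-- the class of a commensurable subgroup -/
theorem Zs_comm_top {E E' : Subgroup G} {c : ℕ} (h : Commensurable E E') (hE' : UR E')
    (hc : Zs E c = E) : Zs E' c = E' := by
  have h1 : Zs (E ⊓ E') c = E ⊓ E' := Zs_sub_top inf_le_left hc
  refine Zs_top hE' inf_le_right ⟨E', (closure_eq E').symm, fun y hy => ?_⟩ h1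
  obtain ⟨m, hm, -, hym⟩ := Subgroup.exists_pow_mem_of_relIndex_ne_zero h.1 hy
  exact ⟨m, hm.ne', hym⟩

/-- **isolated nilpotent edge groups** -/
theorem nil_main (hC : ClosedE C) (hM : ∀ (G : Type) [Group G], derivedSeries G 2 = ⊥ → C G)
    (hA : AcylF C) (hT : T.IsTree) (hact : ∀ (g : G) (u v : V), T.Adj u v → T.Adj (g • u) (g • v))
    (hV : ∀ v : V, C ↥(MulAction.stabilizer G v))
    (hN : ∀ v u : V, T.Adj v u → Infinite (Es G v u) → Group.IsNilpotent (Es G v u))
    (hU : ∀ v u : V, T.Adj v u → Infinite (Es G v u) → UR (closure (Rts G v u)))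
    (n : ℕ) (hint : ∀ v a b, T.Adj v a → T.Adj v b → a ≠ b →
      (Infinite (Es G v a) ∧ Infinite (Es G v b) ∧ Commensurable (Es G v a) (Es G v b)) ∨
      ∀ F : Finset G, (∀ g ∈ F, g ∈ Es G v a ∧ g ∈ Es G v b) → F.card ≤ n)
    (hQ : ∀ v u : V, T.Adj v u → Infinite (Es G v u) →
      QC C (MulAction.stabilizer G v ⊓ commensurator (Es G v u)) (closure (Rts G v u))) : C G := by
  refine cylF hC hA hT hact (rf_LR (T := T)) n ?_ hV fun y K hK => ?_
  · intro w a b ha hb hab F hF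
    rcases hint w a b ha hb (fun h => hab (Or.inl h)) with h | h
    · exact absurd (Or.inr h) hab
    · exact h F fun g hg => ⟨⟨(hF g hg).1, (hF g hg).2.1⟩, ⟨(hF g hg).1, (hF g hg).2.2⟩⟩
  obtain ⟨⟨⟨v0, a0⟩, h0⟩, hy⟩ := Quotient.exists_rep y
  have h0 : T.Adj v0 a0 := h0
  have hy : cy (rf G) h0 = y := hy
  by_cases hinf0 : Infinite (Es G v0 a0)
  · have hRf : ∀ (v u : V) (h : T.Adj v u), cy (rf G) h = y → Rf G (v0, a0) (v, u) :=
      fun v u h hvy => Rf_gen (p := dt h0) (q := dt h) (Quotient.exact (hy.trans hvy.symm))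
    have hcom : ∀ (v u : V) (h : T.Adj v u) (v' u' : V) (h' : T.Adj v' u'), cy (rf G) h = y →
        cy (rf G) h' = y → Commensurable (Es G v u) (Es G v' u') :=
      fun v u h v' u' h' hvy hvy' => (hRf v u h hvy).comm.symm.trans (hRf v' u' h' hvy').comm
    have hinf : ∀ (v u : V) (h : T.Adj v u), cy (rf G) h = y → Infinite (Es G v u) :=
      fun v u h hvy => (hRf v u h hvy).inf hinf0
    have hTF : ∀ (v u : V) (h : T.Adj v u), cy (rf G) h = y → TF (Es G v u) :=
      fun v u h hvy => ((hU v u h (hinf v u h hvy)).mono (Es_le_Rts v u)).tf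
    -- the root closures
    have hRv : ∀ v, ∃ R : Subgroup G, ∀ (u : V) (h : T.Adj v u), cy (rf G) h = y →
        R = closure (Rts G v u) := by
      intro v
      by_cases hv : Mem y v
      · obtain ⟨u, hvu, hvy⟩ := hv
        refine ⟨closure (Rts G v u), fun u' h' hvy' => ?_⟩
        rw [Rts_eq (hTF v u hvu hvy) (hTF v u' h' hvy') (hcom v u hvu v u' h' hvy hvy')]
      · exact ⟨⊥, fun u h hvy => absurd ⟨u, h, hvy⟩ hv⟩
    choose R hR using hRv
    have hUR : ∀ v, Mem y v → UR (R v) := by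
      rintro v ⟨u, hvu, hvy⟩
      rw [hR v u hvu hvy]
      exact hU v u hvu (hinf v u hvu hvy)
    obtain ⟨c, hc⟩ : ∃ c, Zs (Es G v0 a0) c = Es G v0 a0 := by
      obtain ⟨c, hc⟩ := (hN v0 a0 h0 hinf0).nilpotent
      exact ⟨c, by rw [Zs, hc, ← MonoidHom.range_eq_map, Subgroup.range_subtype]⟩
    have hcE : ∀ (v u : V) (h : T.Adj v u), cy (rf G) h = y → Zs (Es G v u) c = Es G v u := by
      intro v u h hvy
      exact Zs_comm_top (hRf v u h hvy).comm
        ((hU v u h (hinf v u h hvy)).mono (Es_le_Rts v u)) hc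
    have hcR : ∀ v, Mem y v → Zs (R v) c = R v := by
      rintro v ⟨u, hvu, hvy⟩
      have h1 := hUR v ⟨u, hvu, hvy⟩
      rw [hR v u hvu hvy] at h1 ⊢
      exact Zs_top h1 (Es_le_Rts v u) (Rts_Dn v u) (hcE v u hvu hvy)
    have hedge : ∀ i, ∀ u v (h : T.Adj u v), cy (rf G) h = y → ∀ x : G, x • u = u → x • v = v →
        (x ∈ Zs (R u) i ↔ x ∈ Zs (Es G u v) i) := by
      intro i u v huv huy x hxu hxv
      have h1 := hUR u ⟨v, huv, huy⟩
      rw [hR u v huv huy] at h1 ⊢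
      exact ⟨Zs_sub (Es_le_Rts u v) i x ⟨hxu, hxv⟩, Zs_dense h1 (Es_le_Rts u v) (Rts_Dn u v) i x⟩
    refine cyl_series hC hM hT hact rf_LR y K hK c (fun i v => Zs (R v) i) ?_ ?_ ?_ ?_ ?_ ?_ ?_ ?_
    · exact fun v _ => Zs_zero _
    · exact fun i _ v _ => Zs_mono _ (Nat.le_succ i)
    · rintro i _ v ⟨u, hvu, hvy⟩ x hx
      have h1 := Zs_le _ _ hx
      rw [hR v u hvu hvy] at h1
      exact Rts_le v u h1
    · rintro i _ g hg v ⟨u, hvu, hvy⟩ x hx
      refine Zs_conj ?_ i x hx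
      intro z
      rw [hR v u hvu hvy, hR (g • v) (g • u) (hact g v u hvu) (hK g hg v u hvu hvy)]
      exact cl_smul
    · intro i _ u v huv huy x hx hxv
      have hxu : x • u = u := by
        have h1 := Zs_le _ _ hx
        rw [hR u v huv huy] at h1
        exact Rts_le u v h1
      have h1 := (hedge i u v huv huy x hxu hxv).1 hx
      have hvy : cy (rf G) huv.symm = y := (cy_symm huv).trans huy
      rw [Es_comm] at h1
      exact (hedge i v u huv.symm hvy x hxv hxu).2 h1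
    · exact fun i _ v _ => Zs_comm _ i
    · intro u v huv huy g _ hgu hgv
      show g ∈ Zs (R u) c
      rw [hcR u ⟨v, huv, huy⟩, hR u v huv huy]
      exact Es_le_Rts u v ⟨hgu, hgv⟩
    · rintro v ⟨u, hvu, hvy⟩
      show QC C _ (Zs (R v) c)
      rw [hcR v ⟨u, hvu, hvy⟩, hR v u hvu hvy]
      refine (hQ v u hvu (hinf v u hvu hvy)).mono ?_
      rintro g ⟨hgK, hgv⟩
      refine ⟨hgv, ?_⟩
      show g ∈ commensurator (Es G v u)
      rw [Commensurable.commensurator_mem_iff, ← Es_smul]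
      exact hcom _ _ (hact g v u hvu) _ _ hvu (hK g hgK v u hvu hvy) hvy
  · subst hy
    refine C_edge hC v0 a0 (hV v0) K fun g hg => ?_
    have h1 := hK g hg v0 a0 h0 rfl
    rcases Rf_gen (p := dt (hact g v0 a0 h0)) (q := dt h0) (Quotient.exact h1) with
      (h | h) | ⟨_, h, _⟩
    · exact Or.inl ⟨(congrArg Prod.fst h).symm, (congrArg Prod.snd h).symm⟩
    · exact Or.inr ⟨(congrArg Prod.snd h).symm, (congrArg Prod.fst h).symm⟩
    · exact absurd h hinf0

end Pool.Agent.U385.FJ
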