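import Pool.Agent.N509.TK.Fin

/-!
# Compatible families of subgroups of the vertex stabilizers

`G` acts on a tree, `R v` is a subgroup of the stabilizer of `v`, the family is equivariant, and an
element of `R u` which fixes a neighbour `v` of `u` is in `R v`. The group generated by the `R v` meets the
stabilizer of `v` in `R v`, and there is a subtree which is a transversal for it.
-/

set_option autoImplicit false

namespace Pool.Agent.U385.FJ

open SimpleGraph
open Pool.Agent.Y110.FJ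
open Pool.Agent.N509.TK

variable {G V : Type} {T : SimpleGraph V} [Group G] [MulAction G V]

/-- a compatible family -/
structure Fm (T : SimpleGraph V) (R : V → Subgroup G) : Prop where
  fix : ∀ v, ∀ r ∈ R v, r • v = v
  eqv : ∀ (g : G) (v : V), ∀ r ∈ R v, g * r * g⁻¹ ∈ R (g • v)
  loc : ∀ u v, T.Adj u v → ∀ r ∈ R u, r • v = v → r ∈ R v

variable {R : V → Subgroup G} {S : Set V}

/-- reduced expressions `r₁ ⋯ r_n r₀` with `r₀ ∈ R s` -/
inductive Rd (T : SimpleGraph V) (R : V → Subgroup G) (S : Set V) (s : V) : ℕ → V → G → Prop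
  | base (r : G) : r ∈ R s → Rd T R S s 0 s r
  | step (n : ℕ) (p q a : V) (r h : G) : p ∈ S → r ∈ R p → Rd T R S s n q h → St T p a q →
      r • a ≠ a → Rd T R S s (n + 1) p (r * h)

theorem YS_St' (hT : T.IsTree) (hS : Good T R S) {p q x a : V} (hp : p ∈ S) (hq : q ∈ S)
    (ha : St T p a q) (hx : x ∈ YS T S q) : St T p a x := by
  rcases hx with rfl | ⟨w, hw, h⟩
  · exact ha
  · obtain ⟨b, hb⟩ := St_exists hT ha.ne.symm
    have hbS := hS.St_mem hT hq hp hb
    exact St_trans hT h hb (fun h => hw (h ▸ hbS)) ha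

theorem Rd.mem {s : V} (hs : s ∈ S) {n : ℕ} {p : V} {h : G} (hr : Rd T R S s n p h) : p ∈ S := by
  cases hr with
  | base => exact hs
  | step _ _ _ _ _ _ hp => exact hp

theorem Rd.act (hT : T.IsTree) (hact : ∀ (g : G) (u v : V), T.Adj u v → T.Adj (g • u) (g • v))
    (hR : Fm T R) (hS : Good T R S) {s : V} (hs : s ∈ S) {n : ℕ} {p : V} {h : G}
    (hr : Rd T R S s n p h) : h • s ∈ YS T S p ∧ (0 < n → h • s ∈ XS T S p) := by
  induction hr with
  | base r hr => exact ⟨Or.inl (hR.fix s r hr), fun h => absurd h (lt_irrefl _)⟩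
  | step n p q a r h hp hr hd ha hne ih =>
    have hq := hd.mem hs
    have h1 := YS_St' hT hS hp hq ha ih.1
    have h2 := St_smul hact r h1
    rw [hR.fix p r hr, ← mul_smul] at h2
    have haS := hS.St_mem hT hp hq ha
    have h3 : (r * h) • s ∈ XS T S p :=
      ⟨r • a, fun hra => hne (hS.lc p hp a haS (r • a) hra h1.1 h2.1 r hr rfl).symm, h2⟩
    exact ⟨XS_YS h3, fun _ => h3⟩

theorem Rd.inner (hR : Fm T R) {s : V} {n : ℕ} {p q : V} (w : T.Walk p q)
    (hw : w.IsPath) (hS : ∀ z ∈ w.support, z ∈ S) {h : G} (hd : Rd T R S s n q h)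
    (hq : ∀ r ∈ R q, ∃ m p', Rd T R S s m p' (r * h)) :
    ∀ r ∈ R p, ∃ m p', Rd T R S s m p' (r * h) := by
  induction w with
  | nil => exact hq
  | @cons u a v hadj w ih =>
    intro r hr
    rw [Walk.cons_isPath_iff] at hw
    by_cases hra : r • a = a
    · exact ih hw.1 (fun z hz => hS z (by simp [hz])) hd hq r (hR.loc u a hadj r hr hra)
    · exact ⟨n + 1, u, .step n u v a r h (hS u (by simp)) hr hd ⟨hadj, w, hw.2⟩ hra⟩

theorem Rd.mul (hR : Fm T R) (hS : Good T R S) {s : V} (hs : s ∈ S) (n : ℕ) :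
    ∀ (q : V) (h : G), Rd T R S s n q h → ∀ (p : V), p ∈ S → ∀ r ∈ R p,
      ∃ m p', Rd T R S s m p' (r * h) := by
  classical
  induction n with
  | zero =>
    intro q h hd p hp r hr
    obtain ⟨w, hw⟩ := hS.cvx p hp q (hd.mem hs)
    refine Rd.inner hR w.bypass w.bypass_isPath
      (fun z hz => hw z (w.support_bypass_subset_support hz)) hd ?_ r hr
    intro r' hr'
    cases hd with
    | base r0 h0 => exact ⟨0, s, .base _ (mul_mem hr' h0)⟩
  | succ n ihn =>
    intro q h hd p hp r hr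
    obtain ⟨w, hw⟩ := hS.cvx p hp q (hd.mem hs)
    refine Rd.inner hR w.bypass w.bypass_isPath
      (fun z hz => hw z (w.support_bypass_subset_support hz)) hd ?_ r hr
    intro r' hr'
    cases hd with
    | step _ _ q1 a r1 h1 hq hr1 hd1 ha hne =>
      rw [← mul_assoc]
      exact ihn q1 h1 hd1 q hq (r' * r1) (mul_mem hr' hr1)

theorem Rd.exists (hR : Fm T R) (hS : Good T R S) {s : V} (hs : s ∈ S) {h : G}
    (hh : h ∈ ⨆ i : Ix R S, R i.1) : ∃ n p, Rd T R S s n p h := by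
  rw [Subgroup.iSup_eq_closure] at hh
  induction hh using Subgroup.closure_induction_left with
  | one => exact ⟨0, s, .base 1 (one_mem _)⟩
  | mul_left x hx y hy ih =>
    obtain ⟨n, p, hd⟩ := ih
    obtain ⟨i, hi⟩ := Set.mem_iUnion.1 hx
    exact hd.mul hR hS hs n p y i.1 i.2.1 x hi
  | inv_mul_cancel x hx y hy ih =>
    obtain ⟨n, p, hd⟩ := ih
    obtain ⟨i, hi⟩ := Set.mem_iUnion.1 hx
    exact hd.mul hR hS hs n p y i.1 i.2.1 x⁻¹ ((R i.1).inv_mem hi)

theorem sup (hT : T.IsTree) (hact : ∀ (g : G) (u v : V), T.Adj u v → T.Adj (g • u) (g • v))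
    (hR : Fm T R) (hS : Tv T R S) : (⨆ i : Ix R S, R i.1) = ⨆ v, R v := by
  apply le_antisymm
  · exact iSup_le fun i => le_iSup R i.1
  · refine iSup_le fun v x hx => ?_
    obtain ⟨h, hh, s, hs, rfl⟩ := hS.cover' hT hact v
    have h1 := hR.eqv h⁻¹ _ x hx
    rw [inv_smul_smul] at h1
    have h2 := le_Ix hs h1
    have h3 := mul_mem (mul_mem hh h2) (inv_mem hh)
    have h4 : h * (h⁻¹ * x * h⁻¹⁻¹) * h⁻¹ = x := by group
    rwa [h4] at h3

theorem trans (hT : T.IsTree) (hact : ∀ (g : G) (u v : V), T.Adj u v → T.Adj (g • u) (g • v))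
    (hR : Fm T R) (hS : Tv T R S) {x : G} (hx : x ∈ ⨆ v, R v) {s s' : V} (hs : s ∈ S)
    (hs' : s' ∈ S) (h : x • s = s') : s = s' ∧ x ∈ R s := by
  rw [← sup hT hact hR hS] at hx
  obtain ⟨n, p, hd⟩ := Rd.exists hR hS.toGood hs hx
  rcases Nat.eq_zero_or_pos n with rfl | hn
  · cases hd with
    | base _ h0 => exact ⟨(hR.fix s x h0).symm.trans h, h0⟩
  · have h1 := (hd.act hT hact hR hS.toGood hs).2 hn
    rw [h] at h1
    exact absurd h1 (hS.toGood.not_XS hT (hd.mem hs) hs')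

/-- the group generated by the family meets the stabilizer of `v` in `R v` -/
theorem stab (hT : T.IsTree) (hact : ∀ (g : G) (u v : V), T.Adj u v → T.Adj (g • u) (g • v))
    (hR : Fm T R) {x : G} (hx : x ∈ ⨆ v, R v) {v : V} (h : x • v = v) : x ∈ R v := by
  obtain ⟨S, hS⟩ := Tv.exists (R := R) hT
  obtain ⟨a, ha, s, hs, rfl⟩ := hS.cover' hT hact v
  rw [sup hT hact hR hS] at ha
  have h1 : a⁻¹ * x * a ∈ ⨆ v, R v := mul_mem (mul_mem (inv_mem ha) hx) ha
  have h2 : (a⁻¹ * x * a) • s = s := by rw [mul_smul, mul_smul, h, inv_smul_smul]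
  have h3 := (trans hT hact hR hS h1 hs hs h2).2
  have h4 := hR.eqv a s _ h3
  have h5 : a * (a⁻¹ * x * a) * a⁻¹ = x := by group
  rwa [h5] at h4

/-- the subtree is a transversal -/
theorem toTq (hT : T.IsTree) (hact : ∀ (g : G) (u v : V), T.Adj u v → T.Adj (g • u) (g • v))
    (hR : Fm T R) (hS : Tv T R S) : Tq T (⨆ v, R v) S where
  ne := hS.ne
  cvx := hS.cvx
  cover v := by
    obtain ⟨h, hh, s, hs, heq⟩ := hS.cover' hT hact v
    rw [sup hT hact hR hS] at hh
    exact ⟨h, hh, s, hs, heq⟩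
  trans h hh s hs s' hs' heq := (trans hT hact hR hS hh hs hs' heq).1
  max s hs w h := by
    obtain ⟨u, hu, h1, r, hr, h2⟩ := hS.max s hs w h
    exact ⟨u, hu, h1, r, le_iSup R s hr, hR.fix s r hr, h2⟩

theorem Fm.normal (hR : Fm T R) : (⨆ v, R v).Normal := by
  refine ⟨fun x hx g => ?_⟩
  have h1 : (⨆ v, R v) ≤ (⨆ v, R v).comap (MulAut.conj g).toMonoidHom :=
    iSup_le fun v x hx => le_iSup R (g • v) (hR.eqv g v x hx)
  exact h1 hx

theorem Sb_eq (hT : T.IsTree) (hact : ∀ (g : G) (u v : V), T.Adj u v → T.Adj (g • u) (g • v))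
    (hR : Fm T R) (v : V) : Sb (⨆ v, R v) v = R v := by
  ext x
  rw [mem_Sb]
  exact ⟨fun h => stab hT hact hR h.2 h.1, fun h => ⟨hR.fix v x h, le_iSup R v h⟩⟩

end Pool.Agent.U385.FJ
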