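import Pool.Agent.U385.FJ.Cyl

/-!
# Isolated nilpotent edge groups: assembly
-/

set_option autoImplicit false

namespace Pool.Agent.U385.FJ

open SimpleGraph
open scoped commutatorElement Pointwise
open Subgroup
open Subgroup.Commensurable (commensurator)
open Pool.Agent.Y110.FJ
open Pool.Agent.N509.TX (AcylF)
open Pool.Agent.N431.CE (Es mem_Es Es_comm Es_smul)

variable {C : ∀ (G : Type) [Group G], Prop}
variable {G V : Type} [Group G] [MulAction G V] {T : SimpleGraph V}

theorem cyc_index {E K : Subgroup G} (hE : IsCyclic E) {x : G} (hxE : x ∈ E) (hxK : x ∈ K)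
    (hx : ∀ m : ℕ, m ≠ 0 → x ^ m ≠ 1) : K.relIndex E ≠ 0 := by
  obtain ⟨⟨a, ha⟩, hgen⟩ := hE.exists_generator
  obtain ⟨k, hk⟩ := hgen ⟨x, hxE⟩
  have hk1 : a ^ k = x := by
    have := congrArg Subtype.val hk
    simpa using this
  have hk0 : k ≠ 0 := by
    rintro rfl
    rw [zpow_zero] at hk1
    exact hx 1 one_ne_zero (by rw [← hk1, one_pow])
  rw [Subgroup.relIndex]
  let A : Subgroup E := K.subgroupOf E
  have hcomm : ∀ u v : E, u * v = v * u := by
    intro u v
    obtain ⟨i, rfl⟩ := hgen u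
    obtain ⟨j, rfl⟩ := hgen v
    exact (Commute.zpow_zpow_self _ i j).eq
  have hN : A.Normal := ⟨fun n hn g => by rwa [hcomm g n, mul_inv_cancel_right]⟩
  have hfin : Finite (E ⧸ A) := by
    have h1 : IsOfFinOrder ((⟨a, ha⟩ : E) : E ⧸ A) := by
      rw [isOfFinOrder_iff_zpow_eq_one]
      refine ⟨k, hk0, ?_⟩
      rw [← QuotientGroup.mk_zpow, QuotientGroup.eq_one_iff]
      show ((⟨a, ha⟩ : E) ^ k : E) ∈ K.subgroupOf E
      rw [mem_subgroupOf]
      push_cast
      rwa [hk1]
    have h2 : (zpowers ((⟨a, ha⟩ : E) : E ⧸ A) : Set (E ⧸ A)).Finite := finite_zpowers.2 h1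
    have h3 : (zpowers ((⟨a, ha⟩ : E) : E ⧸ A) : Set (E ⧸ A)) = Set.univ := by
      rw [Set.eq_univ_iff_forall]
      intro z
      obtain ⟨z, rfl⟩ := QuotientGroup.mk_surjective z
      obtain ⟨i, rfl⟩ := hgen z
      exact ⟨i, rfl⟩
    rw [h3] at h2
    exact Set.finite_univ_iff.1 h2
  exact Subgroup.index_ne_zero_of_finite

/-- infinite cyclic groups are torsion-free -/
theorem cyc_tf {E : Subgroup G} (hE : IsCyclic E) (hinf : Infinite E) : TF E := by
  intro x hx m hm hxm
  by_contra hne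
  obtain ⟨a, hgen⟩ := hE.exists_generator
  obtain ⟨k, hk⟩ := hgen ⟨x, hx⟩
  have hk : a ^ k = ⟨x, hx⟩ := hk
  have hk0 : k ≠ 0 := by
    rintro rfl
    rw [zpow_zero] at hk
    exact hne (congrArg Subtype.val hk).symm
  have h1 : IsOfFinOrder a := by
    rw [isOfFinOrder_iff_zpow_eq_one]
    refine ⟨k * m, mul_ne_zero hk0 (by exact_mod_cast hm), ?_⟩
    rw [zpow_mul, hk, zpow_natCast]
    exact Subtype.ext hxm
  have h2 : (zpowers a : Set E).Finite := finite_zpowers.2 h1
  have h3 : (zpowers a : Set E) = Set.univ := Set.eq_univ_iff_forall.2 hgen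
  rw [h3] at h2
  exact (Set.finite_univ_iff.1 h2).not_infinite hinf

/-- infinite cyclic subgroups are commensurable or intersect trivially -/
theorem cyc_iso {E K : Subgroup G} (hE : IsCyclic E) (hK : IsCyclic K) (hinf : Infinite E) :
    Commensurable E K ∨ E ⊓ K = ⊥ := by
  by_cases h : E ⊓ K = ⊥
  · exact Or.inr h
  · left
    obtain ⟨⟨x, hxE, hxK⟩, hx1⟩ := Subgroup.ne_bot_iff_exists_ne_one.1 h
    have hx : ∀ m : ℕ, m ≠ 0 → x ^ m ≠ 1 := fun m hm h1 =>
      hx1 (Subtype.ext (cyc_tf hE hinf x hxE m hm h1))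
    exact ⟨cyc_index hK hxK hxE hx, cyc_index hE hxE hxK hx⟩

/-- the conditions on the vertex groups: torsion-free and locally nilpotent; or in the class, and for the
infinite edge groups `E` the group generated by the roots of the nontrivial elements of `E` has unique
roots, and the commensurator of `E` modulo this group is in the class -/
def VC (C : ∀ (G : Type) [Group G], Prop) (G : Type) {V : Type} [Group G] [MulAction G V]
    (T : SimpleGraph V) (v : V) : Prop :=
  (LN (MulAction.stabilizer G v) ∧ TF (MulAction.stabilizer G v)) ∨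
  (C ↥(MulAction.stabilizer G v) ∧
    ∀ u, T.Adj v u → Infinite (Es G v u) → UR (closure (Rts G v u)) ∧
      QC C (MulAction.stabilizer G v ⊓ commensurator (Es G v u)) (closure (Rts G v u)))

theorem QC_root (hC : ClosedE C) (hM : ∀ (G : Type) [Group G], derivedSeries G 2 = ⊥ → C G)
    {v : V} (u : V) (h : LN (MulAction.stabilizer G v)) (htf : TF (MulAction.stabilizer G v)) :
    QC C (MulAction.stabilizer G v ⊓ commensurator (Es G v u)) (closure (Rts G v u)) := by
  refine QC_LN hC hM (h.mono inf_le_left) ?_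
  rintro g ⟨hgv, hgc⟩ x hx -
  have hgc : g ∈ commensurator (Es G v u) := hgc
  have hgv : g • v = v := hgv
  rw [Commensurable.commensurator_mem_iff, ← Es_smul, hgv] at hgc
  have h1 := (cl_smul (g := g) (v := v) (u := u)).1 hx
  rwa [hgv, Rts_eq (fun x hx => htf x hx.1) (fun x hx => htf x hx.1) hgc] at h1

theorem iso_main (hC : ClosedE C) (hM : ∀ (G : Type) [Group G], derivedSeries G 2 = ⊥ → C G)
    (hA : AcylF C) (hT : T.IsTree) (hact : ∀ (g : G) (u v : V), T.Adj u v → T.Adj (g • u) (g • v))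
    (hV : ∀ v : V, VC C G T v) (n : ℕ)
    (hN : ∀ v u : V, T.Adj v u → Infinite (Es G v u) → Group.IsNilpotent (Es G v u))
    (hint : ∀ v a b, T.Adj v a → T.Adj v b → a ≠ b →
      (Infinite (Es G v a) ∧ Infinite (Es G v b) ∧
        (Commensurable (Es G v a) (Es G v b) ∨ IsCyclic (Es G v a) ∧ IsCyclic (Es G v b))) ∨
      ∀ F : Finset G, (∀ g ∈ F, g ∈ Es G v a ∧ g ∈ Es G v b) → F.card ≤ n) : C G := by
  refine nil_main hC hM hA hT hact ?_ hN ?_ (n + 1) ?_ ?_
  · intro v
    rcases hV v with h | h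
    · exact C_LN hC hM h.1.toLNg
    · exact h.1
  · intro v u hvu hinf
    rcases hV v with h | h
    · exact (h.1.roots h.2).mono (Rts_le v u)
    · exact (h.2 u hvu hinf).1
  · intro v a b ha hb hab
    rcases hint v a b ha hb hab with ⟨h1, h2, h3 | ⟨h3, h4⟩⟩ | h
    · exact Or.inl ⟨h1, h2, h3⟩
    · rcases cyc_iso h3 h4 h1 with h5 | h5
      · exact Or.inl ⟨h1, h2, h5⟩
      · refine Or.inr fun F hF => ?_
        have h6 : F.card ≤ 1 := by
          rw [Finset.card_le_one]
          have h7 : ∀ g ∈ F, g = 1 := fun g hg => by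
            have h8 : g ∈ Es G v a ⊓ Es G v b := hF g hg
            rwa [h5, mem_bot] at h8
          intro x hx z hz
          rw [h7 x hx, h7 z hz]
        omega
    · exact Or.inr fun F hF => (h F hF).trans (Nat.le_succ n)
  · intro v u hvu hne
    rcases hV v with h | h
    · exact QC_root hC hM u h.1 h.2
    · exact (h.2 u hvu hne).2

end Pool.Agent.U385.FJ
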