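import Pool.Agent.U385.FJ.Zs
import Pool.Agent.N509.TX.Fg

/-!
# Locally nilpotent groups
-/

set_option autoImplicit false

namespace Pool.Agent.U385.FJ

open scoped commutatorElement
open Subgroup
open Pool.Agent.Y110.FJ
open Pool.Agent.N509.TK (metab)
open Pool.Agent.N509.TX (of_fg)
open Pool.Agent.R941.FJ (C_equiv C_le C_cyc mem_sup_normal)

variable {C : ∀ (G : Type) [Group G], Prop}

/-- locally nilpotent groups -/
def LNg (G : Type) [Group G] : Prop := ∀ S : Set G, S.Finite → Group.IsNilpotent (closure S)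

theorem metab_comm {G : Type} [Group G] (h : ∀ x y : G, x * y = y * x) :
    derivedSeries G 2 = ⊥ :=
  metab ⊤ (fun x _ y _ => h x y) fun _ _ => mem_top _

/-- nilpotent groups are in the class -/
theorem C_nil (hC : ClosedE C) (hM : ∀ (G : Type) [Group G], derivedSeries G 2 = ⊥ → C G)
    (G : Type) [Group G] [Group.IsNilpotent G] : C G := by
  refine Group.nilpotent_center_quotient_ind (P := fun G _ _ => C G) G ?_ ?_
  · intro G _ _
    exact hM G (metab_comm fun x y => Subsingleton.elim _ _)
  · intro G _ _ ih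
    have key : ∀ g : G, C ↥(center G ⊔ zpowers g) := by
      intro g
      refine hM _ (metab_comm ?_)
      rintro ⟨x, hx⟩ ⟨y, hy⟩
      obtain ⟨a, ha, _, ⟨i, rfl⟩, rfl⟩ := mem_sup_normal.1 hx
      obtain ⟨b, hb, _, ⟨j, rfl⟩, rfl⟩ := mem_sup_normal.1 hy
      apply Subtype.ext
      show a * g ^ i * (b * g ^ j) = b * g ^ j * (a * g ^ i)
      have h1 : ∀ c : G, Commute c a := fun c => mem_center_iff.1 ha c
      have h2 : ∀ c : G, Commute c b := fun c => mem_center_iff.1 hb c
      exact ((h2 _).mul_right (((h1 _).symm).mul_left (Commute.zpow_zpow_self g i j))).eq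
    refine Pool.Agent.Y529.FJ.t_ext C hC _ (center G) ?_ ih fun g _ => key g
    exact C_le hC.base le_sup_left (key 1)

/-- locally nilpotent groups are in the class -/
theorem C_LN (hC : ClosedE C) (hM : ∀ (G : Type) [Group G], derivedSeries G 2 = ⊥ → C G)
    {G : Type} [Group G] (h : LNg G) : C G := by
  refine of_fg hC fun H hfg => ?_
  obtain ⟨S, hS⟩ := (Group.fg_iff_subgroup_fg H).1 hfg
  have h1 := h S S.finite_toSet
  rw [hS] at h1
  exact C_nil hC hM H

theorem LNg.of_surjective {G H : Type} [Group G] [Group H] (h : LNg G) (f : G →* H)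
    (hf : Function.Surjective f) : LNg H := by
  intro S hS
  obtain ⟨g, hg⟩ := hf.hasRightInverse
  have h1 := h (g '' S) (hS.image g)
  have h2 : (closure (g '' S)).map f = closure S := by
    rw [MonoidHom.map_closure, ← Set.image_comp]
    congr 1
    have h3 : (f ∘ g) = id := funext hg
    rw [h3, Set.image_id]
  rw [← h2]
  exact Group.nilpotent_of_surjective (f.subgroupMap (closure (g '' S)))
    (f.subgroupMap_surjective _)

/-- torsion-free nilpotent groups have unique roots -/
theorem nil_roots (G : Type) [Group G] [Group.IsNilpotent G]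
    (h : ∀ z ∈ center G, ∀ m : ℕ, m ≠ 0 → z ^ m = 1 → z = 1) : URg G := by
  refine Group.nilpotent_center_quotient_ind
    (P := fun G _ _ => (∀ z ∈ center G, ∀ m : ℕ, m ≠ 0 → z ^ m = 1 → z = 1) → URg G) G ?_ ?_ h
  · intro G _ _ _ x y _ _ _
    exact Subsingleton.elim _ _
  · intro G _ _ ih h x y m hm hxy
    have h1 : ∀ z ∈ center (G ⧸ center G), ∀ m : ℕ, m ≠ 0 → z ^ m = 1 → z = 1 := by
      intro z hz m hm hzm
      obtain ⟨z, rfl⟩ := QuotientGroup.mk_surjective z
      rw [← QuotientGroup.mk_pow, QuotientGroup.eq_one_iff] at hzm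
      rw [QuotientGroup.eq_one_iff, mem_center_iff]
      intro g
      have h2 : ⁅z, g⁆ ∈ center G := by
        rw [← QuotientGroup.eq_one_iff]
        have h3 : ((⁅z, g⁆ : G) : G ⧸ center G) = ⁅(z : G ⧸ center G), (g : G ⧸ center G)⁆ := rfl
        rw [h3, commutatorElement_eq_one_iff_mul_comm]
        exact (mem_center_iff.1 hz _).symm
      have h3 : g * z = ⁅z, g⁆⁻¹ * (z * g) := by
        rw [commutatorElement_def]
        group
      -- `z g z⁻¹ = [z, g] g`
      have h4 : ∀ k : ℕ, z ^ k * g * (z ^ k)⁻¹ = ⁅z, g⁆ ^ k * g := by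
        intro k
        induction k with
        | zero => simp
        | succ k ihk =>
          have h5 : z ^ (k + 1) * g * (z ^ (k + 1))⁻¹ = z * (z ^ k * g * (z ^ k)⁻¹) * z⁻¹ := by
            rw [pow_succ']
            group
          have h6 : Commute z (⁅z, g⁆ ^ k) := Commute.pow_right (mem_center_iff.1 h2 z) k
          rw [h5, ihk]
          have h7 : z * (⁅z, g⁆ ^ k * g) * z⁻¹ = ⁅z, g⁆ ^ k * (z * g * z⁻¹ * g⁻¹) * g := by
            rw [← mul_assoc, h6.eq]
            group
          rw [h7, ← commutatorElement_def, ← pow_succ]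
      have h5 := h4 m
      have h6 : z ^ m * g * (z ^ m)⁻¹ = g := by
        rw [← mem_center_iff.1 hzm g]
        group
      rw [h6] at h5
      have h7 : ⁅z, g⁆ ^ m = 1 := by
        have := mul_right_cancel (h5.symm.trans (one_mul g).symm)
        exact this
      have h8 := h _ h2 m hm h7
      rw [commutatorElement_eq_one_iff_mul_comm] at h8
      exact h8.symm
    have h2 := ih h1 (x : G ⧸ center G) (y : G ⧸ center G) m hm (by
      rw [← QuotientGroup.mk_pow, ← QuotientGroup.mk_pow, hxy])
    have h3 : x⁻¹ * y ∈ center G := QuotientGroup.eq.1 h2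
    have h4 : y = x * (x⁻¹ * y) := by group
    have h5 : Commute x (x⁻¹ * y) := mem_center_iff.1 h3 x
    have h6 : (x⁻¹ * y) ^ m = 1 := by
      have h7 : x ^ m = x ^ m * (x⁻¹ * y) ^ m := by
        conv_lhs => rw [hxy, h4, h5.mul_pow]
      exact (mul_eq_left.1 h7.symm)
    exact (inv_mul_eq_one.1 (h _ h3 m hm h6))

/-- locally nilpotent subgroups -/
def LN {G : Type} [Group G] (A : Subgroup G) : Prop :=
  ∀ S : Set G, S.Finite → S ⊆ A → Group.IsNilpotent (closure S)

theorem LN.toLNg {G : Type} [Group G] {A : Subgroup G} (h : LN A) : LNg A := by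
  intro S hS
  have h1 := h (A.subtype '' S) (hS.image _) (by
    rintro _ ⟨x, -, rfl⟩
    exact x.2)
  have h2 : (closure S).map A.subtype = closure (A.subtype '' S) := MonoidHom.map_closure _ _
  rw [← h2] at h1
  exact (Group.isNilpotent_congr
    ((closure S).equivMapOfInjective A.subtype A.subtype_injective)).2 h1

theorem LN.mono {G : Type} [Group G] {A B : Subgroup G} (h : LN A) (hB : B ≤ A) : LN B :=
  fun S hS hSB => h S hS (hSB.trans hB)

theorem LN.roots {G : Type} [Group G] {A : Subgroup G} (h : LN A)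
    (htf : ∀ x ∈ A, ∀ m : ℕ, m ≠ 0 → x ^ m = 1 → x = 1) : UR A := by
  intro x hx y hy m hm hxy
  have h1 := h {x, y} (Set.toFinite _) (by
    rintro z (rfl | rfl)
    · exact hx
    · exact hy)
  have hle : closure {x, y} ≤ A := by
    rw [closure_le]
    rintro z (rfl | rfl)
    · exact hx
    · exact hy
  have h2 := nil_roots (closure {x, y}) (fun z _ k hk hz => Subtype.ext (htf z (hle z.2) k hk (by
    have := congrArg Subtype.val hz
    simpa using this)))
  have h3 := h2 ⟨x, subset_closure (by simp)⟩ ⟨y, subset_closure (by simp)⟩ m hm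
    (Subtype.ext hxy)
  exact congrArg Subtype.val h3

/-- quotients of locally nilpotent groups are in the class -/
theorem QC_LN (hC : ClosedE C) (hM : ∀ (G : Type) [Group G], derivedSeries G 2 = ⊥ → C G)
    {G : Type} [Group G] {A B : Subgroup G} (h : LN A)
    (hn : ∀ g ∈ A, ∀ x ∈ B, x ∈ A → g * x * g⁻¹ ∈ B) : QC C A B := by
  have hN : (B.subgroupOf A).Normal := by
    refine ⟨fun x hx g => ?_⟩
    rw [mem_subgroupOf] at hx ⊢
    exact hn g g.2 x hx x.2
  refine ⟨A ⧸ B.subgroupOf A, inferInstance, QuotientGroup.mk' _, C_LN hC hM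
    (h.toLNg.of_surjective _ (QuotientGroup.mk'_surjective _)), fun x => ?_⟩
  exact (QuotientGroup.eq_one_iff x).trans mem_subgroupOf

end Pool.Agent.U385.FJ
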