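import Pool.Agent.U385.FJ.Fm
import Pool.Agent.N509.TK.Loc

/-!
# Compatible families of subgroups of the vertex stabilizers and classes of groups
-/

set_option autoImplicit false

namespace Pool.Agent.U385.FJ

open SimpleGraph
open Pool.Agent.Y110.FJ
open Pool.Agent.N509.TK
open Pool.Agent.R941.FJ (C_equiv C_le C_cyc mem_sup_normal)

variable {C : ∀ (G : Type) [Group G], Prop} {G V : Type} {T : SimpleGraph V} [Group G]
  [MulAction G V] {R : V → Subgroup G} {S : Set V}

/-- the general form: the quotient is in the class -/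
theorem main1 (hC : ClosedE C) (hM : ∀ (G : Type) [Group G], derivedSeries G 2 = ⊥ → C G)
    (hT : T.IsTree) (hact : ∀ (g : G) (u v : V), T.Adj u v → T.Adj (g • u) (g • v))
    (hR : Fm T R) (hE : ∀ u v, T.Adj u v → ∀ x ∈ R u, x • v = v → x ∈ ⁅R u, R u⁆ → x = 1)
    [(⨆ v, R v).Normal] (hQ : C (G ⧸ ⨆ v, R v))
    (hV : ∀ (v : V) (g : G), g • v = v → C ↥(R v ⊔ Subgroup.zpowers g)) : C G := by
  have hSb : Sb (V := V) (⨆ v, R v) = R := funext fun v => Sb_eq hT hact hR v
  refine hcrit hC hM hT hact (⨆ v, R v) hQ ?_ ?_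
  · rw [hSb]
    exact fun v u h x hx hu hc => hE v u h x hx (hR.fix u x hu) hc
  · rw [hSb]
    exact hV

/-- the stabilizers in the quotient, acting on the transversal -/
theorem stab_quot (hC : ClosedE C) (hT : T.IsTree)
    (hact : ∀ (g : G) (u v : V), T.Adj u v → T.Adj (g • u) (g • v)) (hR : Fm T R)
    [(⨆ v, R v).Normal] (hS : Tv T R S) (s : S) (P : Type) [Group P]
    (f : MulAction.stabilizer G (s : V) →* P) (hP : C P) (hf : ∀ g, f g = 1 ↔ (g : G) ∈ R (s : V)) :
    letI := qa (toTq hT hact hR hS)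
    C ↥(MulAction.stabilizer (G ⧸ ⨆ v, R v) s) := by
  letI := qa (toTq hT hact hR hS)
  let φ0 : MulAction.stabilizer G (s : V) →* G ⧸ ⨆ v, R v :=
    (QuotientGroup.mk' _).comp (Subgroup.subtype _)
  have hmem : ∀ g, φ0 g ∈ MulAction.stabilizer (G ⧸ ⨆ v, R v) s := by
    rintro ⟨g, hg⟩
    show sm (toTq hT hact hR hS) g s = s
    refine sm_eq (toTq hT hact hR hS) (h := 1) (one_mem _) ?_
    rw [one_smul]
    exact hg
  let φ : MulAction.stabilizer G (s : V) →* MulAction.stabilizer (G ⧸ ⨆ v, R v) s :=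
    φ0.codRestrict _ hmem
  have hsur : Function.Surjective φ := by
    rintro ⟨q, hq⟩
    obtain ⟨g, rfl⟩ := QuotientGroup.mk_surjective q
    have h1 : sm (toTq hT hact hR hS) g s = s := hq
    obtain ⟨h, hh, h2⟩ := sm_spec (toTq hT hact hR hS) g s
    rw [h1] at h2
    refine ⟨⟨h⁻¹ * g, ?_⟩, ?_⟩
    · rw [MulAction.mem_stabilizer_iff, mul_smul, h2, inv_smul_smul]
    · apply Subtype.ext
      show ((h⁻¹ * g : G) : G ⧸ ⨆ v, R v) = (g : G ⧸ ⨆ v, R v)
      rw [QuotientGroup.mk_mul, QuotientGroup.mk_inv, (QuotientGroup.eq_one_iff h).2 hh, inv_one,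
        one_mul]
  have hker : ∀ g, φ g = 1 ↔ (g : G) ∈ R (s : V) := by
    intro g
    constructor
    · intro h
      have h1 : ((g : G) : G ⧸ ⨆ v, R v) = 1 := congrArg Subtype.val h
      exact stab hT hact hR ((QuotientGroup.eq_one_iff _).1 h1) g.2
    · intro h
      apply Subtype.ext
      exact (QuotientGroup.eq_one_iff _).2 (le_iSup R _ h)
  let F : MulAction.stabilizer (G ⧸ ⨆ v, R v) s →* P :=
    φ.liftOfSurjective hsur ⟨f, fun g hg => (hf g).2 ((hker g).1 hg)⟩
  refine hC.base.of_injective _ P F ?_ hP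
  rw [injective_iff_map_eq_one]
  intro q hq
  obtain ⟨g, rfl⟩ := hsur q
  have h1 : F (φ g) = f g := MonoidHom.liftOfRightInverse_comp_apply _ _ _ _ g
  rw [h1] at hq
  exact (hker g).2 ((hf g).1 hq)

/-- if the edge groups are contained in the groups of the family, then the quotient is in the class -/
theorem quot_mem (hC : ClosedE C) (hT : T.IsTree)
    (hact : ∀ (g : G) (u v : V), T.Adj u v → T.Adj (g • u) (g • v)) (hR : Fm T R)
    [(⨆ v, R v).Normal]
    (hE : ∀ u v, T.Adj u v → ∀ g : G, g • u = u → g • v = v → g ∈ R u)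
    (hQ : ∀ v : V, ∃ (P : Type) (_ : Group P) (f : MulAction.stabilizer G v →* P), C P ∧
      ∀ g, f g = 1 ↔ (g : G) ∈ R v) : C (G ⧸ ⨆ v, R v) := by
  obtain ⟨S, hS⟩ := Tv.exists (R := R) hT
  have hq := toTq hT hact hR hS
  letI := qa hq
  refine edges (G := G ⧸ ⨆ v, R v) (V := S) (T := T.induce S) hC (hq.isTree hT) ?_ ?_ ?_
  · intro q s t hst
    obtain ⟨g, rfl⟩ := QuotientGroup.mk_surjective q
    exact sm_adj hact hq g s t hst
  · intro s
    obtain ⟨P, _, f, hP, hf⟩ := hQ s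
    exact stab_quot hC hT hact hR hS s P f hP hf
  · intro s t hst
    refine ⟨Multiplicative ℤ, inferInstance, 1, hC.base.int, fun q hqs hqt _ => ?_⟩
    obtain ⟨g, rfl⟩ := QuotientGroup.mk_surjective q
    have h1 : sm hq g s = s := hqs
    have h2 : sm hq g t = t := hqt
    obtain ⟨h, hh, h3⟩ := sm_spec hq g s
    obtain ⟨k, hk, h4⟩ := sm_spec hq g t
    rw [h1] at h3
    rw [h2] at h4
    have hadj : T.Adj (s : V) ((h⁻¹ * g) • (t : V)) := by
      have hst' : T.Adj (s : V) (t : V) := hst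
      have h5 := hact (h⁻¹ * g) _ _ hst'
      rwa [mul_smul, h3, inv_smul_smul] at h5
    obtain ⟨u, hu, h5, r, hr, hrs, h6⟩ := hq.max s s.2 _ hadj
    have h7 : (⟨u, hu⟩ : S) = t := by
      refine quq hq (h := r) (h' := h⁻¹ * k) hr (mul_mem (inv_mem hh) hk) ?_
      rw [h6, mul_smul, mul_smul, h4]
    subst h7
    have h8 : r⁻¹ * (h⁻¹ * g) ∈ R (s : V) := by
      refine hE s u h5 _ ?_ ?_
      · rw [mul_smul, mul_smul, h3, inv_smul_smul, inv_smul_eq_iff, hrs]
      · rw [mul_smul, ← h6, inv_smul_smul]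
    refine (QuotientGroup.eq_one_iff g).2 ?_
    have h9 := mul_mem (mul_mem hh hr) (le_iSup R _ h8)
    have h10 : h * r * (r⁻¹ * (h⁻¹ * g)) = g := by group
    rwa [h10] at h9

end Pool.Agent.U385.FJ
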