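import Pool.Agent.U385.FJ.Main

/-!
# Compatible series of subgroups of the vertex stabilizers
-/

set_option autoImplicit false

namespace Pool.Agent.U385.FJ

open SimpleGraph
open scoped commutatorElement
open Pool.Agent.Y110.FJ
open Pool.Agent.N509.TK
open Pool.Agent.R941.FJ (C_equiv C_le C_cyc mem_sup_normal)

variable {C : ∀ (G : Type) [Group G], Prop}

/-- `A / B` is in the class -/
def QC (C : ∀ (G : Type) [Group G], Prop) {G : Type} [Group G] (A B : Subgroup G) : Prop :=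
  ∃ (P : Type) (_ : Group P) (f : A →* P), C P ∧ ∀ x : A, f x = 1 ↔ (x : G) ∈ B

theorem QC.map {G : Type} [Group G] {A B N : Subgroup G} [N.Normal] (h : QC C A B)
    (hB : B ≤ A) (hN : ∀ x ∈ A, x ∈ N → x ∈ B) :
    QC C (A.map (QuotientGroup.mk' N)) (B.map (QuotientGroup.mk' N)) := by
  obtain ⟨P, _, f, hP, hf⟩ := h
  let φ : A →* A.map (QuotientGroup.mk' N) := (QuotientGroup.mk' N).subgroupMap A
  have hsur : Function.Surjective φ := (QuotientGroup.mk' N).subgroupMap_surjective A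
  have hker : ∀ a : A, φ a = 1 → f a = 1 := by
    intro a ha
    have h1 : ((a : G) : G ⧸ N) = 1 := congrArg Subtype.val ha
    exact (hf a).2 (hN a a.2 ((QuotientGroup.eq_one_iff _).1 h1))
  let F : A.map (QuotientGroup.mk' N) →* P := φ.liftOfSurjective hsur ⟨f, hker⟩
  refine ⟨P, _, F, hP, fun x => ?_⟩
  obtain ⟨a, rfl⟩ := hsur x
  have h1 : F (φ a) = f a := MonoidHom.liftOfRightInverse_comp_apply _ _ _ _ a
  rw [h1, hf]
  constructor
  · exact fun h => ⟨a, h, rfl⟩
  · rintro ⟨b, hb, hab⟩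
    have h2 : ((b : G) : G ⧸ N) = ((a : G) : G ⧸ N) := hab
    have h3 : b⁻¹ * (a : G) ∈ N := QuotientGroup.eq.1 h2
    have h4 := hN _ (mul_mem (inv_mem (hB hb)) a.2) h3
    have h5 := mul_mem hb h4
    rwa [mul_inv_cancel_left] at h5

section

variable {G V : Type} {T : SimpleGraph V} [Group G] [MulAction G V] {R R' : V → Subgroup G}
  {S : Set V}

theorem lift_nbr (hT : T.IsTree)
    (hact : ∀ (g : G) (u v : V), T.Adj u v → T.Adj (g • u) (g • v)) (hR : Fm T R)
    (hS : Tv T R S) (g : G) (s t : S) (hst : T.Adj (s : V) t) (hs : g • (s : V) = s)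
    (ht : sm (toTq hT hact hR hS) g t = t) : ∃ r ∈ R (s : V), (r⁻¹ * g) • (t : V) = t := by
  have hq := toTq hT hact hR hS
  obtain ⟨k, hk, h4⟩ := sm_spec hq g t
  rw [ht] at h4
  have hadj : T.Adj (s : V) (g • (t : V)) := by
    have h5 := hact g _ _ hst
    rwa [hs] at h5
  obtain ⟨u, hu, h5, r, hr, hrs, h6⟩ := hq.max s s.2 _ hadj
  have h7 : (⟨u, hu⟩ : S) = t := by
    refine quq hq (h := r) (h' := k) hr hk ?_
    rw [h6, h4]
  subst h7
  exact ⟨r, stab hT hact hR hr hrs, by rw [mul_smul, ← h6, inv_smul_smul]⟩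

theorem rep_stab (hT : T.IsTree)
    (hact : ∀ (g : G) (u v : V), T.Adj u v → T.Adj (g • u) (g • v)) (hR : Fm T R)
    [(⨆ v, R v).Normal] (hS : Tv T R S) (g : G) (s : S)
    (hs : sm (toTq hT hact hR hS) g s = s) :
    ∃ g' : G, g' • (s : V) = s ∧ ((g' : G) : G ⧸ ⨆ v, R v) = g := by
  obtain ⟨h, hh, h2⟩ := sm_spec (toTq hT hact hR hS) g s
  rw [hs] at h2
  refine ⟨h⁻¹ * g, by rw [mul_smul, h2, inv_smul_smul], ?_⟩
  rw [QuotientGroup.mk_mul, QuotientGroup.mk_inv, (QuotientGroup.eq_one_iff h).2 hh, inv_one,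
    one_mul]

theorem Fm.quot (hT : T.IsTree)
    (hact : ∀ (g : G) (u v : V), T.Adj u v → T.Adj (g • u) (g • v)) (hR : Fm T R)
    (hR' : Fm T R') (hle : ∀ v, R v ≤ R' v) [(⨆ v, R v).Normal] (hS : Tv T R S) :
    letI := qa (toTq hT hact hR hS)
    Fm (T.induce S) (fun s : S => (R' s).map (QuotientGroup.mk' (⨆ v, R v))) := by
  have hq := toTq hT hact hR hS
  letI := qa (toTq hT hact hR hS)
  refine ⟨?_, ?_, ?_⟩
  · rintro s _ ⟨r, hr, rfl⟩
    show sm hq r s = s
    refine sm_eq hq (h := 1) (one_mem _) ?_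
    rw [one_smul]
    exact hR'.fix s r hr
  · rintro q s _ ⟨r, hr, rfl⟩
    obtain ⟨g, rfl⟩ := QuotientGroup.mk_surjective q
    show _ ∈ (R' (sm hq g s : V)).map (QuotientGroup.mk' (⨆ v, R v))
    obtain ⟨h, hh, h2⟩ := sm_spec hq g s
    have h3 := hR'.eqv g s r hr
    rw [h2] at h3
    have h4 := hR'.eqv h⁻¹ _ _ h3
    rw [inv_smul_smul] at h4
    refine ⟨_, h4, ?_⟩
    show ((h⁻¹ * (g * r * g⁻¹) * h⁻¹⁻¹ : G) : G ⧸ ⨆ v, R v) = ((g * r * g⁻¹ : G) : G ⧸ ⨆ v, R v)
    rw [QuotientGroup.mk_mul, QuotientGroup.mk_mul, QuotientGroup.mk_inv, QuotientGroup.mk_inv,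
      (QuotientGroup.eq_one_iff h).2 hh]
    simpa using hh
  · rintro s t hst _ ⟨r, hr, rfl⟩ ht
    have ht' : sm hq r t = t := ht
    obtain ⟨r1, hr1, h1⟩ := lift_nbr hT hact hR hS r s t hst (hR'.fix s r hr) ht'
    refine ⟨r1⁻¹ * r, hR'.loc s t hst _ (mul_mem (inv_mem (hle _ hr1)) hr) h1, ?_⟩
    show ((r1⁻¹ * r : G) : G ⧸ ⨆ v, R v) = ((r : G) : G ⧸ ⨆ v, R v)
    rw [QuotientGroup.mk_mul, QuotientGroup.mk_inv,
      (QuotientGroup.eq_one_iff r1).2 (le_iSup R _ hr1), inv_one, one_mul]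

/-- the images generate the image -/
theorem map_sup (hT : T.IsTree)
    (hact : ∀ (g : G) (u v : V), T.Adj u v → T.Adj (g • u) (g • v)) (hR : Fm T R)
    (hR' : Fm T R') [(⨆ v, R v).Normal] (hS : Tv T R S) :
    (⨆ s : S, (R' s).map (QuotientGroup.mk' (⨆ v, R v))) =
      (⨆ v, R' v).map (QuotientGroup.mk' (⨆ v, R v)) := by
  have hq := toTq hT hact hR hS
  apply le_antisymm
  · exact iSup_le fun s => Subgroup.map_mono (le_iSup R' (s : V))
  · rw [Subgroup.map_iSup]
    refine iSup_le fun v => ?_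
    rintro _ ⟨r, hr, rfl⟩
    obtain ⟨h, hh, s, hs, rfl⟩ := hq.cover v
    have h4 := hR'.eqv h⁻¹ _ _ hr
    rw [inv_smul_smul] at h4
    refine (le_iSup (fun s : S => (R' s).map (QuotientGroup.mk' (⨆ v, R v))) ⟨s, hs⟩) ⟨_, h4, ?_⟩
    show ((h⁻¹ * r * h⁻¹⁻¹ : G) : G ⧸ ⨆ v, R v) = ((r : G) : G ⧸ ⨆ v, R v)
    rw [QuotientGroup.mk_mul, QuotientGroup.mk_mul, QuotientGroup.mk_inv, QuotientGroup.mk_inv,
      (QuotientGroup.eq_one_iff h).2 hh]
    simpa using hh

/-- a compatible series of subgroups of the stabilizers of the vertices -/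
structure Series (C : ∀ (G : Type) [Group G], Prop) (T : SimpleGraph V) (n : ℕ)
    (R : ℕ → V → Subgroup G) : Prop where
  /-- the series starts with the trivial groups -/
  bot : ∀ v, R 0 v = ⊥
  /-- it is increasing -/
  mono : ∀ i < n, ∀ v, R i v ≤ R (i + 1) v
  /-- `R i v` is contained in the stabilizer of `v` -/
  fix : ∀ i ≤ n, ∀ v, ∀ r ∈ R i v, r • v = v
  /-- the families `R i` are invariant under conjugation -/
  conj : ∀ i ≤ n, ∀ (g : G) (v : V), ∀ r ∈ R i v, g * r * g⁻¹ ∈ R i (g • v)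
  /-- `R i u` and `R i v` meet the stabilizer of the edge `{u, v}` in the same subgroup -/
  edge : ∀ i ≤ n, ∀ u v, T.Adj u v → ∀ r ∈ R i u, r • v = v → r ∈ R i v
  /-- the `i`-th quotients are abelian; or the `i`-th quotients of the edge groups embed in the first
  homology of those of the vertex groups, and the extensions of the `i`-th quotients by cyclic groups of
  stabilizers are in the class -/
  layer : ∀ i < n, (∀ v, ⁅R (i + 1) v, R (i + 1) v⁆ ≤ R i v) ∨
    (∀ u v, T.Adj u v → ∀ x ∈ ⁅R (i + 1) u, R (i + 1) u⁆ ⊔ R i u, x • v = v → x ∈ R i u) ∧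
    ∀ (v : V) (g : G), g • v = v → QC C (R (i + 1) v ⊔ Subgroup.zpowers g) (R i v)

theorem Series.fm {n : ℕ} {R : ℕ → V → Subgroup G} (h : Series C T n R) {i : ℕ} (hi : i ≤ n) :
    Fm T (R i) := ⟨h.fix i hi, h.conj i hi, h.edge i hi⟩

/-- the general form of the condition on the layers -/
def Lay (C : ∀ (G : Type) [Group G], Prop) (T : SimpleGraph V) (R R' : V → Subgroup G) : Prop :=
  (∀ u v, T.Adj u v → ∀ x ∈ ⁅R' u, R' u⁆ ⊔ R u, x • v = v → x ∈ R u) ∧
    ∀ (v : V) (g : G), g • v = v → QC C (R' v ⊔ Subgroup.zpowers g) (R v)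

theorem lay_of_abelian (hM : ∀ (G : Type) [Group G], derivedSeries G 2 = ⊥ → C G)
    (hR : Fm T R) (hR' : Fm T R') (hle : ∀ v, R v ≤ R' v) (hab : ∀ v, ⁅R' v, R' v⁆ ≤ R v) :
    Lay C T R R' := by
  refine ⟨fun u v _ x hx _ => (sup_le (hab u) le_rfl) hx, fun v g hg => ?_⟩
  have hfix : ∀ x ∈ R' v ⊔ Subgroup.zpowers g, x • v = v := by
    intro x hx
    have h1 : R' v ⊔ Subgroup.zpowers g ≤ MulAction.stabilizer G v := by
      refine sup_le (hR'.fix v) ?_
      rw [Subgroup.zpowers_le]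
      exact hg
    exact h1 hx
  have hn : ((R v).subgroupOf (R' v ⊔ Subgroup.zpowers g)).Normal := by
    refine ⟨fun x hx y => ?_⟩
    rw [Subgroup.mem_subgroupOf] at hx ⊢
    have h1 := hR.eqv (y : G) v _ hx
    rw [hfix y y.2] at h1
    exact h1
  refine ⟨_, inferInstance, QuotientGroup.mk' ((R v).subgroupOf (R' v ⊔ Subgroup.zpowers g)), ?_,
    fun x => ?_⟩
  · have hn' : ∀ y ∈ R' v ⊔ Subgroup.zpowers g, ∀ x ∈ R' v, y * x * y⁻¹ ∈ R' v := by
      intro y hy x hx
      have h1 := hR'.eqv y v _ hx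
      rwa [hfix y hy] at h1
    -- the image of `R' v`
    refine hM _ (metab (((R' v).subgroupOf (R' v ⊔ Subgroup.zpowers g)).map (QuotientGroup.mk' _))
      ?_ ?_)
    · rintro _ ⟨a, ha, rfl⟩ _ ⟨b, hb, rfl⟩
      rw [← map_mul, ← map_mul]
      refine QuotientGroup.eq.2 ?_
      rw [Subgroup.mem_subgroupOf]
      have h1 : (((a * b)⁻¹ * (b * a) : ↥(R' v ⊔ Subgroup.zpowers g)) : G) =
          ⁅(b : G)⁻¹, (a : G)⁻¹⁆ := by
        rw [commutatorElement_def]
        push_cast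
        group
      rw [h1]
      exact hab v (Subgroup.commutator_mem_commutator (inv_mem hb) (inv_mem ha))
    · intro x y
      obtain ⟨a, rfl⟩ := QuotientGroup.mk_surjective x
      obtain ⟨b, rfl⟩ := QuotientGroup.mk_surjective y
      have hnn : ((R' v).subgroupOf (R' v ⊔ Subgroup.zpowers g)).Normal := by
        refine ⟨fun x hx y => ?_⟩
        rw [Subgroup.mem_subgroupOf] at hx ⊢
        exact hn' y y.2 _ hx
      refine ⟨⁅a, b⁆, ?_, rfl⟩
      have key : ∀ c : ↥(R' v ⊔ Subgroup.zpowers g),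
          ∃ i : ℤ, (c : ↥(R' v ⊔ Subgroup.zpowers g) ⧸
            (R' v).subgroupOf (R' v ⊔ Subgroup.zpowers g)) =
            ((⟨g, Subgroup.mem_sup_right (Subgroup.mem_zpowers g)⟩ :
              ↥(R' v ⊔ Subgroup.zpowers g)) : ↥(R' v ⊔ Subgroup.zpowers g) ⧸
            (R' v).subgroupOf (R' v ⊔ Subgroup.zpowers g)) ^ i := by
        rintro ⟨c, hc⟩
        have h1 : R' v ⊔ Subgroup.zpowers g ≤
            ((Subgroup.zpowers ((⟨g, Subgroup.mem_sup_right (Subgroup.mem_zpowers g)⟩ :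
              ↥(R' v ⊔ Subgroup.zpowers g)) : ↥(R' v ⊔ Subgroup.zpowers g) ⧸
            (R' v).subgroupOf (R' v ⊔ Subgroup.zpowers g))).comap
              (QuotientGroup.mk' _)).map (Subgroup.subtype _) := by
          refine sup_le ?_ ?_
          · intro r hr
            refine ⟨⟨r, Subgroup.mem_sup_left hr⟩, ?_, rfl⟩
            have h5 : QuotientGroup.mk' ((R' v).subgroupOf (R' v ⊔ Subgroup.zpowers g))
                ⟨r, Subgroup.mem_sup_left hr⟩ = 1 :=
              (QuotientGroup.eq_one_iff _).2 (by rw [Subgroup.mem_subgroupOf]; exact hr)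
            rw [SetLike.mem_coe, Subgroup.mem_comap, h5]
            exact one_mem _
          · rw [Subgroup.zpowers_le]
            exact ⟨_, Subgroup.mem_zpowers _, rfl⟩
        obtain ⟨c', ⟨i, hi⟩, h2⟩ := h1 hc
        have h3 : c' = ⟨c, hc⟩ := Subtype.ext h2
        subst h3
        exact ⟨i, hi.symm⟩
      obtain ⟨i, hi⟩ := key a
      obtain ⟨j, hj⟩ := key b
      show ⁅a, b⁆ ∈ (R' v).subgroupOf (R' v ⊔ Subgroup.zpowers g)
      rw [← QuotientGroup.eq_one_iff]
      have h1 : ((⁅a, b⁆ : ↥(R' v ⊔ Subgroup.zpowers g)) : ↥(R' v ⊔ Subgroup.zpowers g) ⧸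
            (R' v).subgroupOf (R' v ⊔ Subgroup.zpowers g)) =
          ⁅(a : ↥(R' v ⊔ Subgroup.zpowers g) ⧸ (R' v).subgroupOf (R' v ⊔ Subgroup.zpowers g)),
            (b : ↥(R' v ⊔ Subgroup.zpowers g) ⧸ (R' v).subgroupOf (R' v ⊔ Subgroup.zpowers g))⁆ :=
        rfl
      rw [h1, hi, hj, commutatorElement_eq_one_iff_mul_comm, ← zpow_add, add_comm, zpow_add]
  · exact (QuotientGroup.eq_one_iff x).trans Subgroup.mem_subgroupOf

theorem Series.lay {n : ℕ} {R : ℕ → V → Subgroup G}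
    (hM : ∀ (G : Type) [Group G], derivedSeries G 2 = ⊥ → C G) (h : Series C T n R) {i : ℕ}
    (hi : i < n) : Lay C T (R i) (R (i + 1)) := by
  rcases h.layer i hi with h1 | h1
  · exact lay_of_abelian hM (h.fm hi.le) (h.fm hi) (h.mono i hi) h1
  · exact h1

/-- passage to the quotient -/
theorem Lay.quot {R1 : V → Subgroup G} (hT : T.IsTree)
    (hact : ∀ (g : G) (u v : V), T.Adj u v → T.Adj (g • u) (g • v)) (hR1 : Fm T R1)
    (hR' : Fm T R') (h1 : ∀ v, R1 v ≤ R v) (hle : ∀ v, R v ≤ R' v)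
    [(⨆ v, R1 v).Normal] (hS : Tv T R1 S) (hL : Lay C T R R') :
    letI := qa (toTq hT hact hR1 hS)
    Lay C (T.induce S) (fun s : S => (R s).map (QuotientGroup.mk' (⨆ v, R1 v)))
      (fun s : S => (R' s).map (QuotientGroup.mk' (⨆ v, R1 v))) := by
  have hq := toTq hT hact hR1 hS
  letI := qa (toTq hT hact hR1 hS)
  refine ⟨?_, ?_⟩
  · intro s t hst x hx ht
    rw [← Subgroup.map_commutator, ← Subgroup.map_sup] at hx
    obtain ⟨y, hy, rfl⟩ := hx
    have hy' : y ∈ R' s := (sup_le (Subgroup.commutator_le_self _) (hle s)) hy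
    have ht' : sm hq y t = t := ht
    obtain ⟨r, hr, h2⟩ := lift_nbr hT hact hR1 hS y s t hst (hR'.fix s y hy') ht'
    refine ⟨r⁻¹ * y, hL.1 s t hst _
      (mul_mem (inv_mem (Subgroup.mem_sup_right (h1 _ hr))) hy) h2, ?_⟩
    show ((r⁻¹ * y : G) : G ⧸ ⨆ v, R1 v) = ((y : G) : G ⧸ ⨆ v, R1 v)
    rw [QuotientGroup.mk_mul, QuotientGroup.mk_inv,
      (QuotientGroup.eq_one_iff r).2 (le_iSup R1 _ hr), inv_one, one_mul]
  · intro s q hqs
    obtain ⟨g0, rfl⟩ := QuotientGroup.mk_surjective q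
    obtain ⟨g, hg, hgg⟩ := rep_stab hT hact hR1 hS g0 s hqs
    rw [← hgg]
    have h2 : (R' s).map (QuotientGroup.mk' (⨆ v, R1 v)) ⊔
        Subgroup.zpowers ((g : G) : G ⧸ ⨆ v, R1 v) =
        (R' s ⊔ Subgroup.zpowers g).map (QuotientGroup.mk' (⨆ v, R1 v)) := by
      rw [Subgroup.map_sup, MonoidHom.map_zpowers]
      rfl
    show QC C ((R' s).map (QuotientGroup.mk' (⨆ v, R1 v)) ⊔
        Subgroup.zpowers ((g : G) : G ⧸ ⨆ v, R1 v)) _
    rw [h2]
    refine (hL.2 s g hg).map ((hle s).trans le_sup_left) fun x hx hxN => ?_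
    have hfix : x • (s : V) = s := by
      have h3 : R' s ⊔ Subgroup.zpowers g ≤ MulAction.stabilizer G (s : V) := by
        refine sup_le (hR'.fix s) ?_
        rw [Subgroup.zpowers_le]
        exact hg
      exact h3 hx
    exact h1 _ (stab hT hact hR1 hxN hfix)

end

/-- **compatible series** -/
theorem ser (hC : ClosedE C) (hM : ∀ (G : Type) [Group G], derivedSeries G 2 = ⊥ → C G) (n : ℕ) :
    ∀ (G V : Type) [Group G] [MulAction G V] (T : SimpleGraph V), T.IsTree →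
      (∀ (g : G) (u v : V), T.Adj u v → T.Adj (g • u) (g • v)) →
      ∀ (R : ℕ → V → Subgroup G), (∀ v, R 0 v = ⊥) → (∀ i < n, ∀ v, R i v ≤ R (i + 1) v) →
      (∀ i ≤ n, Fm T (R i)) → (∀ i < n, Lay C T (R i) (R (i + 1))) →
      ∀ [(⨆ v, R n v).Normal], C (G ⧸ ⨆ v, R n v) → C G := by
  induction n with
  | zero =>
    intro G V _ _ T hT hact R h0 hmono hfm hL _ hQ
    refine hC.base.of_injective _ _ (QuotientGroup.mk' (⨆ v, R 0 v)) ?_ hQ
    rw [injective_iff_map_eq_one]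
    intro g hg
    have h1 : g ∈ ⨆ v, R 0 v := (QuotientGroup.eq_one_iff g).1 hg
    simpa [h0] using h1
  | succ n ih =>
    intro G V _ _ T hT hact R h0 hmono hfm hL _ hQ
    have h1 : ∀ i ≤ n, ∀ v, R 1 v ≤ R (i + 1) v := by
      intro i hi v
      induction i with
      | zero => exact le_rfl
      | succ i ihi => exact (ihi (by omega)).trans (hmono (i + 1) (by omega) v)
    have hR1 := hfm 1 (by omega)
    haveI : (⨆ v, R 1 v).Normal := hR1.normal
    obtain ⟨S, hS⟩ := Tv.exists (R := R 1) hT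
    have hq := toTq hT hact hR1 hS
    -- the quotient
    have hQ1 : C (G ⧸ ⨆ v, R 1 v) := by
      letI := qa (toTq hT hact hR1 hS)
      have hms := map_sup hT hact hR1 (hfm (n + 1) le_rfl) hS
      haveI : (⨆ s : S, (R (n + 1) s).map (QuotientGroup.mk' (⨆ v, R 1 v))).Normal := by
        rw [hms]
        exact Subgroup.Normal.map inferInstance _ (QuotientGroup.mk'_surjective _)
      refine ih (G ⧸ ⨆ v, R 1 v) S (T.induce S) (hq.isTree hT) ?_
        (fun i s => (R (i + 1) s).map (QuotientGroup.mk' (⨆ v, R 1 v))) ?_ ?_ ?_ ?_ ?_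
      · intro q s t hst
        obtain ⟨g, rfl⟩ := QuotientGroup.mk_surjective q
        exact sm_adj hact hq g s t hst
      · intro s
        rw [eq_bot_iff]
        rintro _ ⟨r, hr, rfl⟩
        rw [Subgroup.mem_bot]
        exact (QuotientGroup.eq_one_iff r).2 (le_iSup (R 1) _ hr)
      · exact fun i hi s => Subgroup.map_mono (hmono (i + 1) (by omega) s)
      · exact fun i hi => Fm.quot hT hact hR1 (hfm (i + 1) (by omega)) (h1 i hi) hS
      · exact fun i hi => Lay.quot hT hact hR1 (hfm (i + 1 + 1) (by omega)) (h1 i hi.le)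
          (hmono (i + 1) (by omega)) hS (hL (i + 1) (by omega))
      · have hle : (⨆ v, R 1 v) ≤ ⨆ v, R (n + 1) v := iSup_mono (h1 n le_rfl)
        haveI : ((⨆ v, R (n + 1) v).map (QuotientGroup.mk' (⨆ v, R 1 v))).Normal :=
          Subgroup.Normal.map inferInstance _ (QuotientGroup.mk'_surjective _)
        refine C_equiv hC.base ((QuotientGroup.quotientMulEquivOfEq hms).trans
          (QuotientGroup.quotientQuotientEquivQuotient _ _ hle)) hQ
    refine main1 hC hM hT hact hR1 ?_ hQ1 ?_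
    · intro u v huv x _ hxv hx
      have h2 := (hL 0 (by omega)).1 u v huv x (Subgroup.mem_sup_left hx) hxv
      rw [h0] at h2
      exact h2
    · intro v g hg
      obtain ⟨P, _, f, hP, hf⟩ := (hL 0 (by omega)).2 v g hg
      refine hC.base.of_injective _ P f ?_ hP
      rw [injective_iff_map_eq_one]
      intro x hx
      have h2 := (hf x).1 hx
      rw [h0, Subgroup.mem_bot] at h2
      exact Subtype.ext h2

theorem series_main (hC : ClosedE C) (hM : ∀ (G : Type) [Group G], derivedSeries G 2 = ⊥ → C G)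
    {G V : Type} [Group G] [MulAction G V] {T : SimpleGraph V} (hT : T.IsTree)
    (hact : ∀ (g : G) (u v : V), T.Adj u v → T.Adj (g • u) (g • v)) {n : ℕ}
    {R : ℕ → V → Subgroup G} (h : Series C T n R) [(⨆ v, R n v).Normal]
    (hQ : C (G ⧸ ⨆ v, R n v)) : C G :=
  ser hC hM n G V T hT hact R h.bot h.mono (fun _ hi => h.fm hi) (fun _ hi => h.lay hM hi) hQ

end Pool.Agent.U385.FJ
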