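import Pool.Agent.U385.FJ.Ser

/-!
# Upper central series and unique roots
-/

set_option autoImplicit false

namespace Pool.Agent.U385.FJ

open scoped commutatorElement
open Subgroup

/-- unique roots -/
def URg (G : Type) [Group G] : Prop := ∀ (x y : G) (m : ℕ), m ≠ 0 → x ^ m = y ^ m → x = y

section type

variable {G : Type} [Group G]

theorem URg.comm (h : URg G) {x y : G} {m : ℕ} (hm : m ≠ 0) (hc : Commute x (y ^ m)) :
    Commute x y := by
  have h1 : (x * y * x⁻¹) ^ m = y ^ m := by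
    rw [conj_pow, hc.eq, mul_inv_cancel_right]
  have h2 := h _ _ m hm h1
  exact mul_inv_eq_iff_eq_mul.1 h2

theorem URg.comm' (h : URg G) {x y : G} {m n : ℕ} (hm : m ≠ 0) (hn : n ≠ 0)
    (hc : Commute (x ^ n) (y ^ m)) : Commute x y :=
  (h.comm hn (h.comm hm hc).symm).symm

/-- the quotient by the centre has unique roots -/
theorem URg.quot (h : URg G) : URg (G ⧸ center G) := by
  intro x y m hm hxy
  obtain ⟨x, rfl⟩ := QuotientGroup.mk_surjective x
  obtain ⟨y, rfl⟩ := QuotientGroup.mk_surjective y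
  rw [← QuotientGroup.mk_pow, ← QuotientGroup.mk_pow] at hxy
  have h1 : (x ^ m)⁻¹ * y ^ m ∈ center G := QuotientGroup.eq.1 hxy
  have h2 : Commute (x ^ m) (y ^ m) := by
    have h3 : Commute (x ^ m) ((x ^ m)⁻¹ * y ^ m) := (mem_center_iff.1 h1 (x ^ m))
    have h4 := (Commute.refl (x ^ m)).mul_right h3
    rwa [mul_inv_cancel_left] at h4
  have h3 := h.comm' hm hm h2
  refine QuotientGroup.eq.2 ?_
  have h4 : (x⁻¹ * y) ^ m ∈ center G := by
    rw [(h3.inv_left).mul_pow, inv_pow]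
    exact h1
  rw [mem_center_iff]
  intro g
  exact h.comm hm (mem_center_iff.1 h4 g)

theorem URg.series {i : ℕ} : ∀ (G : Type) [Group G], URg G → ∀ (x y : G) (m : ℕ), m ≠ 0 →
    (x ^ m)⁻¹ * y ^ m ∈ Subgroup.upperCentralSeries G i → x⁻¹ * y ∈ Subgroup.upperCentralSeries G i := by
  induction i with
  | zero =>
    intro G _ h x y m hm hxy
    rw [Subgroup.upperCentralSeries_zero, mem_bot] at hxy ⊢
    rw [inv_mul_eq_one] at hxy ⊢
    exact h x y m hm hxy
  | succ i ih =>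
    intro G _ h x y m hm hxy
    rw [← Subgroup.comap_upperCentralSeries_quotient_center] at hxy ⊢
    exact ih (G ⧸ center G) h.quot x y m hm hxy

end type

section sub

variable {G : Type} [Group G]

/-- the upper central series of a subgroup -/
def Zs (A : Subgroup G) (i : ℕ) : Subgroup G := (Subgroup.upperCentralSeries A i).map A.subtype

theorem mem_Zs {A : Subgroup G} {i : ℕ} {x : G} (hx : x ∈ A) :
    x ∈ Zs A i ↔ (⟨x, hx⟩ : A) ∈ Subgroup.upperCentralSeries A i := by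
  constructor
  · rintro ⟨y, hy, rfl⟩
    exact hy
  · intro h
    exact ⟨_, h, rfl⟩

theorem Zs_le (A : Subgroup G) (i : ℕ) : Zs A i ≤ A := by
  rintro _ ⟨y, -, rfl⟩
  exact y.2

theorem Zs_zero (A : Subgroup G) : Zs A 0 = ⊥ := by
  rw [Zs, Subgroup.upperCentralSeries_zero, Subgroup.map_bot]

theorem mem_Zs_succ {A : Subgroup G} {i : ℕ} {x : G} :
    x ∈ Zs A (i + 1) ↔ x ∈ A ∧ ∀ y ∈ A, ⁅x, y⁆ ∈ Zs A i := by
  constructor
  · intro h
    have hx := Zs_le A _ h
    refine ⟨hx, fun y hy => ?_⟩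
    have h1 := Subgroup.mem_upperCentralSeries_succ_iff.1 ((mem_Zs hx).1 h) ⟨y, hy⟩
    exact ⟨_, h1, rfl⟩
  · rintro ⟨hx, h⟩
    rw [mem_Zs hx, Subgroup.mem_upperCentralSeries_succ_iff]
    rintro ⟨y, hy⟩
    have h1 := h y hy
    rw [mem_Zs (A := A) (Zs_le A i h1)] at h1
    exact h1

theorem Zs_mono (A : Subgroup G) {i j : ℕ} (h : i ≤ j) : Zs A i ≤ Zs A j :=
  Subgroup.map_mono (Subgroup.upperCentralSeries_mono A h)

theorem Zs_comm (A : Subgroup G) (i : ℕ) : ⁅Zs A (i + 1), Zs A (i + 1)⁆ ≤ Zs A i := by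
  rw [commutator_le]
  exact fun x hx y hy => (mem_Zs_succ.1 hx).2 y (Zs_le _ _ hy)

theorem Zs_normal {A : Subgroup G} {i : ℕ} {x y : G} (hx : x ∈ Zs A i) (hy : y ∈ A) :
    y * x * y⁻¹ ∈ Zs A i := by
  have hxA := Zs_le A i hx
  have h1 := (mem_Zs hxA).1 hx
  have hn : (Subgroup.upperCentralSeries A i).Normal := inferInstance
  exact ⟨_, hn.conj_mem _ h1 ⟨y, hy⟩, rfl⟩

theorem Zs_conj {A A' : Subgroup G} {g : G} (h : ∀ x, x ∈ A ↔ g * x * g⁻¹ ∈ A') (i : ℕ) :
    ∀ x ∈ Zs A i, g * x * g⁻¹ ∈ Zs A' i := by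
  induction i with
  | zero =>
    intro x hx
    rw [Zs_zero, mem_bot] at hx ⊢
    rw [hx]
    group
  | succ i ih =>
    intro x hx
    rw [mem_Zs_succ] at hx ⊢
    refine ⟨(h x).1 hx.1, fun y hy => ?_⟩
    have h1 : g * (g⁻¹ * y * g) * g⁻¹ = y := by group
    have h2 : g⁻¹ * y * g ∈ A := by
      rw [h, h1]
      exact hy
    have h3 := ih _ (hx.2 _ h2)
    have h4 : g * ⁅x, g⁻¹ * y * g⁆ * g⁻¹ = ⁅g * x * g⁻¹, y⁆ := by
      simp only [commutatorElement_def]
      group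
    rwa [h4] at h3

/-- unique roots in a subgroup -/
def UR (A : Subgroup G) : Prop := ∀ x ∈ A, ∀ y ∈ A, ∀ m : ℕ, m ≠ 0 → x ^ m = y ^ m → x = y

theorem UR.toURg {A : Subgroup G} (h : UR A) : URg A := fun x y m hm hxy =>
  Subtype.ext (h x x.2 y y.2 m hm (by
    have := congrArg Subtype.val hxy
    simpa using this))

theorem UR.mono {A B : Subgroup G} (h : UR A) (hB : B ≤ A) : UR B :=
  fun x hx y hy m hm hxy => h x (hB hx) y (hB hy) m hm hxy

theorem UR.series {A : Subgroup G} (h : UR A) {i m : ℕ} {x y : G} (hx : x ∈ A) (hy : y ∈ A)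
    (hm : m ≠ 0) (hxy : (x ^ m)⁻¹ * y ^ m ∈ Zs A i) : x⁻¹ * y ∈ Zs A i := by
  have h1 := URg.series (i := i) A h.toURg ⟨x, hx⟩ ⟨y, hy⟩ m hm
  rw [mem_Zs (mul_mem (inv_mem (pow_mem hx m)) (pow_mem hy m))] at hxy
  exact ⟨_, h1 hxy, rfl⟩

theorem UR.root {A : Subgroup G} (h : UR A) {i m : ℕ} {x : G} (hx : x ∈ A)
    (hm : m ≠ 0) (hxm : x ^ m ∈ Zs A i) : x ∈ Zs A i := by
  have h1 := h.series (i := i) (x := 1) (y := x) (one_mem _) hx hm
  rw [one_pow, inv_one, one_mul, one_mul] at h1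
  exact h1 hxm

/-- elements of a smaller group -/
theorem Zs_sub {A E : Subgroup G} (hE : E ≤ A) (i : ℕ) : ∀ x ∈ E, x ∈ Zs A i → x ∈ Zs E i := by
  induction i with
  | zero =>
    intro x _ hx
    rwa [Zs_zero] at hx ⊢
  | succ i ih =>
    intro x hxE hx
    rw [mem_Zs_succ] at hx ⊢
    refine ⟨hxE, fun y hy => ih _ ?_ (hx.2 y (hE hy))⟩
    rw [commutatorElement_def]
    exact mul_mem (mul_mem (mul_mem hxE hy) (inv_mem hxE)) (inv_mem hy)

/-- the group `A` is generated by roots of elements of `E` -/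
def Dn (A E : Subgroup G) : Prop :=
  ∃ S : Set G, A = closure S ∧ ∀ y ∈ S, ∃ m : ℕ, m ≠ 0 ∧ y ^ m ∈ E

theorem Zs_dense {A E : Subgroup G} (hA : UR A) (hE : E ≤ A) (hd : Dn A E) (i : ℕ) :
    ∀ x ∈ Zs E i, x ∈ Zs A i := by
  induction i with
  | zero =>
    intro x hx
    rwa [Zs_zero] at hx ⊢
  | succ i ih =>
    intro x hx
    rw [mem_Zs_succ] at hx ⊢
    have hxA := hE hx.1
    obtain ⟨S, hS, hSE⟩ := hd
    have hSA : ∀ y ∈ S, y ∈ A := fun y hy => by
      rw [hS]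
      exact subset_closure hy
    refine ⟨hxA, ?_⟩
    have key : A ≤
        { carrier := {y | y ∈ A ∧ ⁅x, y⁆ ∈ Zs A i}
          one_mem' := ⟨one_mem _, by rw [commutatorElement_one_right]; exact one_mem _⟩
          mul_mem' := by
            rintro a b ⟨ha, ha'⟩ ⟨hb, hb'⟩
            refine ⟨mul_mem ha hb, ?_⟩
            have h1 : ⁅x, a * b⁆ = ⁅x, a⁆ * (a * ⁅x, b⁆ * a⁻¹) := by
              simp only [commutatorElement_def]
              group
            rw [h1]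
            exact mul_mem ha' (Zs_normal hb' ha)
          inv_mem' := by
            rintro a ⟨ha, ha'⟩
            refine ⟨inv_mem ha, ?_⟩
            have h1 : ⁅x, a⁻¹⁆ = a⁻¹ * ⁅x, a⁆⁻¹ * (a⁻¹)⁻¹ := by
              simp only [commutatorElement_def]
              group
            rw [h1]
            exact Zs_normal (inv_mem ha') (inv_mem ha) : Subgroup G } := by
      conv_lhs => rw [hS]
      rw [closure_le]
      intro y hy
      have hyA := hSA y hy
      refine ⟨hyA, ?_⟩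
      obtain ⟨m, hm, hym⟩ := hSE y hy
      have h1 := ih _ (hx.2 _ hym)
      have h2 : ((x * y⁻¹ * x⁻¹) ^ m)⁻¹ * (y⁻¹) ^ m ∈ Zs A i := by
        have h3 : ((x * y⁻¹ * x⁻¹) ^ m)⁻¹ * (y⁻¹) ^ m = ⁅x, y ^ m⁆ := by
          rw [conj_pow, commutatorElement_def]
          group
        rw [h3]
        exact h1
      have h4 := hA.series (mul_mem (mul_mem hxA (inv_mem hyA)) (inv_mem hxA)) (inv_mem hyA) hm h2
      have h5 : (x * y⁻¹ * x⁻¹)⁻¹ * y⁻¹ = ⁅x, y⁆ := by
        rw [commutatorElement_def]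
        group
      rwa [h5] at h4
    exact fun y hy => (key hy).2

theorem Zs_top {A E : Subgroup G} {c : ℕ} (hA : UR A) (hE : E ≤ A) (hd : Dn A E)
    (hc : Zs E c = E) : Zs A c = A := by
  apply le_antisymm (Zs_le A c)
  obtain ⟨S, hS, hSE⟩ := hd
  conv_lhs => rw [hS]
  rw [closure_le]
  intro y hy
  obtain ⟨m, hm, hym⟩ := hSE y hy
  refine hA.root ?_ hm (Zs_dense hA hE ⟨S, hS, hSE⟩ c _ ?_)
  · rw [hS]
    exact subset_closure hy
  · rwa [hc]

theorem Zs_sub_top {A E : Subgroup G} {c : ℕ} (hE : E ≤ A) (hc : Zs A c = A) : Zs E c = E := by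
  apply le_antisymm (Zs_le E c)
  intro x hx
  refine Zs_sub hE c x hx ?_
  rw [hc]
  exact hE hx

end sub

end Pool.Agent.U385.FJ
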